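import Pool.Agent.N70.EQ.Stm
import Pool.Agent.N342.EP.Grp1

/-!
EQ/GW: the group `X`, a symmetric fibre power of an alternating fibre power.
-/

set_option autoImplicit false

namespace Pool.Agent.N169.EQ

open Pool.Agent.H391R2 Pool.Agent.H391R2.T4 Pool.Agent.Y793 Equiv
open Pool.Agent.N70.EP (SgnIndex)
open Pool.Agent.N70.EQ (Trn St_gw)
open Pool.Agent.N342.EP (stabP mem_stabP sgnIndex_of wact sign_wact)

theorem wr_conj_left {E : Type} [Group E] {n : ℕ} (g c : Wr E n) (hc : c.right = 1) (i : Fin n) :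
    (g⁻¹ * c * g).left i =
      (g.left (g.right i))⁻¹ * c.left (g.right i) * g.left (g.right i) := by
  have h1 : (g⁻¹ : Wr E n).right = g.right⁻¹ := SemidirectProduct.inv_right g
  rw [wr_mul_left, wr_mul_left, wr_inv_left, wr_mul_right, hc, mul_one, h1, inv_inv]

section

variable {H B : Type} [Group H] [Group B] {a : B →* H} {χ : H →* ℤˣ} {q : ℕ}

/-- the permutation of an element of the alternating fibre power -/
def LL (a : B →* H) (χ : H →* ℤˣ) (q : ℕ) : AltTw a χ q →* Perm (Fin q) :=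
  SemidirectProduct.rightHom.comp ((MonoidHom.fst (Wr B q) H).comp (AltTw a χ q).subtype)

/-- construction of elements -/
def mk (f : Fin q → B) (τ : Perm (Fin q)) (h : H) (h1 : ∀ i, a (f i) = h)
    (h2 : Perm.sign τ = χ h) : AltTw a χ q :=
  ⟨(⟨f, τ⟩, h), Subgroup.mem_inf.2 ⟨h1, h2⟩⟩

theorem sign_LL (e : AltTw a χ q) : Perm.sign (LL a χ q e) = χ (twProj a χ q e) :=
  (Subgroup.mem_inf.1 e.2).2

theorem a_left (e : AltTw a χ q) (i : Fin q) : a (e.1.1.left i) = twProj a χ q e :=
  (Subgroup.mem_inf.1 e.2).1 i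

end

theorem t_gw : St_gw := by
  classical
  intro H B _ _ a ha χ ψ q r hq hq4 hr0 hψ
  let i0 : Fin r := ⟨0, hr0⟩
  let s0 : Fin q := ⟨0, by omega⟩
  let L := LL a χ q
  let Φ : SymEP (twProj a χ q) r →* Perm (Fin r × Fin q) :=
    (wact L r).comp ((MonoidHom.fst (Wr (AltTw a χ q) r) H).comp (SymEP (twProj a χ q) r).subtype)
  have hΦ : ∀ (x : SymEP (twProj a χ q) r) i s, Φ x (i, s) =
      (x.1.1.right i, L (x.1.1.left (x.1.1.right i)) s) := fun x i s => rfl
  have hmem : ∀ (x : SymEP (twProj a χ q) r) i, twProj a χ q (x.1.1.left i) = x.1.2 :=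
    fun x i => x.2 i
  have hsign : ∀ x, Perm.sign (Φ x) = (ψ.comp (symProj (twProj a χ q) r)) x := by
    intro x
    change Perm.sign (wact L r x.1.1) = ψ x.1.2
    rw [sign_wact L r _ (by rwa [Fintype.card_fin])]
    have h1 : ∀ i, Perm.sign (L (x.1.1.left i)) = χ x.1.2 := by
      intro i
      rw [sign_LL, hmem]
    rw [Finset.prod_congr rfl fun i _ => h1 i, Finset.prod_const, Finset.card_univ,
      Fintype.card_fin, hψ]
  have htrans : ∀ ω' : Fin r × Fin q, ∃ x, Φ x (i0, s0) = ω' := by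
    rintro ⟨j, s⟩
    have h1 : 3 ≤ Nat.card (Fin q) := by rw [Nat.card_fin]; omega
    have h2 := alternatingGroup.isPretransitive_of_three_le_card (Fin q) h1
    obtain ⟨g, hg⟩ := h2.exists_smul_eq s0 s
    let τ : AltTw a χ q := mk (fun _ => 1) g 1 (fun _ => map_one a) (by
      rw [map_one]
      exact g.2)
    refine ⟨⟨(⟨fun _ => τ, swap i0 j⟩, 1), fun i => rfl⟩, ?_⟩
    rw [hΦ]
    change (swap i0 j i0, (g : Perm (Fin q)) s0) = (j, s)
    rw [swap_apply_left]
    exact Prod.ext rfl hg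
  have hP1 : ∀ p : stabP Φ (i0, s0), p.1.1.1.right i0 = i0 := by
    intro p
    have h1 : Φ p (i0, s0) = (i0, s0) := p.2
    rw [hΦ] at h1
    exact congrArg Prod.fst h1
  have hP2 : ∀ p : stabP Φ (i0, s0), (p.1.1.1.left i0).1.1.right s0 = s0 := by
    intro p
    have h1 : Φ p (i0, s0) = (i0, s0) := p.2
    rw [hΦ, hP1 p] at h1
    exact congrArg Prod.snd h1
  let β : stabP Φ (i0, s0) →* B :=
    { toFun := fun p => (p.1.1.1.left i0).1.1.left s0
      map_one' := rfl
      map_mul' := fun x y => by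
        have h1 : (x.1.1.1.right)⁻¹ i0 = i0 := (Equiv.symm_apply_eq _).2 (hP1 x).symm
        have h2 : ((x.1.1.1.left i0).1.1.right)⁻¹ s0 = s0 :=
          (Equiv.symm_apply_eq _).2 (hP2 x).symm
        have h3 : (x.1.1.1 * y.1.1.1).left i0 = x.1.1.1.left i0 * y.1.1.1.left i0 := by
          rw [wr_mul_left, h1]
        change ((x.1.1.1 * y.1.1.1).left i0).1.1.left s0 = _
        rw [h3]
        change ((x.1.1.1.left i0).1.1 * (y.1.1.1.left i0).1.1).left s0 = _
        rw [wr_mul_left, h2] }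
  have hβ : ∀ p : stabP Φ (i0, s0), β p = (p.1.1.1.left i0).1.1.left s0 := fun _ => rfl
  refine ⟨stabP Φ (i0, s0), β, ?_, ?_, ?_, ?_⟩
  · intro c
    obtain ⟨τ, hτ1, hτ2⟩ : ∃ τ : Perm (Fin q), τ s0 = s0 ∧ Perm.sign τ = χ (a c) := by
      rcases Int.units_eq_one_or (χ (a c)) with h | h
      · exact ⟨1, rfl, by rw [h, map_one]⟩
      · refine ⟨swap ⟨1, by omega⟩ ⟨2, by omega⟩, ?_, ?_⟩
        · apply swap_apply_of_ne_of_ne
          · intro h
            exact Nat.zero_ne_one (congrArg Fin.val h)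
          · intro h
            have := congrArg Fin.val h
            change 0 = 2 at this
            omega
        · rw [h, Perm.sign_swap]
          intro h
          have := congrArg Fin.val h
          change 1 = 2 at this
          omega
    refine ⟨⟨⟨(⟨fun _ => mk (fun _ => c) τ (a c) (fun _ => rfl) hτ2, 1⟩, a c), fun i => rfl⟩, ?_⟩,
      ?_⟩
    · rw [mem_stabP, hΦ]
      change ((1 : Perm (Fin r)) i0, τ s0) = (i0, s0)
      rw [hτ1]
      rfl
    · rfl
  · intro p
    rw [hβ, a_left]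
    exact hmem p.1 i0
  · refine sgnIndex_of Φ (i0, s0) htrans (q * r) ?_ _ hsign
    rw [Fintype.card_prod, Fintype.card_fin, Fintype.card_fin, mul_comm]
  · intro ν hν
    let E1 : AltTw a χ q := mk (Pi.mulSingle s0 ν) 1 1 (by
      intro i
      by_cases hi : i = s0
      · subst hi
        rw [Pi.mulSingle_eq_same, hν]
      · rw [Pi.mulSingle_eq_of_ne hi, map_one]) (by rw [map_one, map_one])
    let γ : SymEP (twProj a χ q) r := ⟨(⟨Pi.mulSingle i0 E1, 1⟩, 1), by
      intro i
      change twProj a χ q (Pi.mulSingle (M := fun _ => AltTw a χ q) i0 E1 i) = 1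
      by_cases hi : i = i0
      · subst hi
        rw [Pi.mulSingle_eq_same]
        rfl
      · rw [Pi.mulSingle_eq_of_ne hi, map_one]⟩
    have hγl : ∀ i, γ.1.1.left i = Pi.mulSingle (M := fun _ => AltTw a χ q) i0 E1 i := fun _ => rfl
    have hE1l : ∀ s, E1.1.1.left s = Pi.mulSingle (M := fun _ => B) s0 ν s := fun _ => rfl
    have hLE : ∀ i, L (γ.1.1.left i) = 1 := by
      intro i
      rw [hγl]
      by_cases hi : i = i0
      · subst hi
        rw [Pi.mulSingle_eq_same]
        rfl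
      · rw [Pi.mulSingle_eq_of_ne hi, map_one]
    have hΦγ : Φ γ = 1 := by
      apply Equiv.ext
      rintro ⟨i, s⟩
      rw [hΦ]
      change (i, L (γ.1.1.left i) s) = (i, s)
      rw [hLE]
      rfl
    have hconj : ∀ g : SymEP (twProj a χ q) r, g⁻¹ * γ * g ∈ stabP Φ (i0, s0) := by
      intro g
      rw [mem_stabP, map_mul, map_mul, hΦγ, mul_one, map_inv, inv_mul_cancel]
      rfl
    refine ⟨γ, hconj, rfl, ?_, ?_⟩
    · intro g hg
      rw [hβ]
      change ((g.1.1⁻¹ * γ.1.1 * g.1.1).left i0).1.1.left s0 = 1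
      rw [wr_conj_left g.1.1 γ.1.1 rfl i0]
      set j := g.1.1.right i0 with hj
      set e := g.1.1.left j with he
      change (e.1.1⁻¹ * (γ.1.1.left j).1.1 * e.1.1).left s0 = 1
      have hr : (γ.1.1.left j).1.1.right = 1 := hLE j
      rw [wr_conj_left e.1.1 _ hr s0]
      suffices h : (γ.1.1.left j).1.1.left (e.1.1.right s0) = 1 by
        rw [h, mul_one, inv_mul_cancel]
      by_cases hji : j = i0
      · by_cases hs : e.1.1.right s0 = s0
        · exfalso
          apply hg
          rw [mem_stabP, hΦ, ← hj]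
          exact Prod.ext hji hs
        · rw [hγl, hji, Pi.mulSingle_eq_same, hE1l, Pi.mulSingle_eq_of_ne hs]
      · rw [hγl, Pi.mulSingle_eq_of_ne hji]
        rfl
    · intro p
      rw [hβ]
      change (γ.1.1.left i0).1.1.left s0 = ν
      rw [hγl, Pi.mulSingle_eq_same, hE1l, Pi.mulSingle_eq_same]

end Pool.Agent.N169.EQ
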